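import Pool.Agent.W2helper32.BK.Main

/-!
# MP_701da7_co, Q1: a bounded set with general diameter graph and no partition into `d + 1` parts

`E d` is Euclidean space `ℝ^d`, `Diameters K` the set `D(K)` of the diameters of `K` (unordered
pairs), `IsGeneral K A` says that `(K, A)` is general (convention of the problem file) and
`Partitionable K m` that `K` is a disjoint union of `m` sets of smaller diameter.
-/

namespace Pool.Agent.Results.MP_701da7_co.BoundedCounterexample

open Pool.Agent.W2helper32.BK

/-- The negated form of Q1, in dimension `d = 4098`, with a set each of whose points lies in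
exactly one diameter. -/
theorem result : ∃ K : Set (E 4098), Bornology.IsBounded K ∧ K.Nontrivial ∧
    (∀ x ∈ K, ∃! y, y ∈ K ∧ dist x y = Metric.diam K) ∧
    IsGeneral K (Diameters K) ∧ ¬ Partitionable K (4098 + 1) :=
  main

end Pool.Agent.Results.MP_701da7_co.BoundedCounterexample
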