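import Pool.Agent.W2helper32.BK.Pos
import Pool.Agent.W2helper32.BK.Mat

/-!
# MP_701da7_co, Q1 for compact sets in which every point lies in at most one diameter

and, without any generality hypothesis, `d + 1` parts for compact sets in which two points with a
common partner are at distance less than `diam K / d`.
-/

namespace Pool.Agent.Results.MP_701da7_co.CompactMatching

open Pool.Agent.W2helper32.BK

theorem result (d : ℕ) (hd : 1 ≤ d) (K : Set (E d)) (hK : IsCompact K) (hn : K.Nontrivial) :
    ((∀ x ∈ K, ∀ y ∈ K, ∀ z ∈ K, dist x y = Metric.diam K → dist x z = Metric.diam K → y = z) →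
      IsGeneral K (Diameters K) ∧ Partitionable K (d + 1)) ∧
    ((∀ x ∈ K, ∀ y ∈ K, ∀ z ∈ K, dist x y = Metric.diam K → dist x z = Metric.diam K →
      dist y z < Metric.diam K / d) → Partitionable K (d + 1)) := by
  refine ⟨fun h => ⟨matching_general K hK.isBounded hn h, compact_part hd K hK hn
    fun x hx y hy z hz h1 h2 => ?_⟩, fun h => compact_part hd K hK hn h⟩
  rw [h x hx y hy z hz h1 h2, dist_self]
  obtain ⟨a, ha, b, hb, hab⟩ := hn
  have : 0 < Metric.diam K :=
    lt_of_lt_of_le (dist_pos.2 hab) (Metric.dist_le_diam_of_mem hK.isBounded ha hb)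
  have : (0 : ℝ) < d := by exact_mod_cast hd
  positivity

end Pool.Agent.Results.MP_701da7_co.CompactMatching
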